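import Pool.Agent.Work.MP_eae946_nt.Full.Main

namespace Pool.Agent.Results.MP_eae946_nt.NoUniversalTernary

open NumberField Pool.Agent.Work.MP_eae946_nt

/-- Let `K = ℚ(√d₀, …, √d_{k-1})` be a totally real multiquadratic field of degree `2 ^ k` with
`k ≥ 3`. Then no classical totally positive definite ternary quadratic form over `𝓞 K` is
universal. -/
theorem result (K : Type*) [Field K] [NumberField K] [IsTotallyReal K] {k : ℕ} (hk : 3 ≤ k)
    (d : Fin k → ℤ) (s : Fin k → K) (hs : ∀ i, s i ^ 2 = (d i : K))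
    (hgen : IntermediateField.adjoin ℚ (Set.range s) = ⊤)
    (hdeg : Module.finrank ℚ K = 2 ^ k) :
    ¬ ∃ A : Matrix (Fin 3) (Fin 3) (𝓞 K), IsUniversalClassicalTernary K A :=
  Full.main hk d s hs hgen hdeg

end Pool.Agent.Results.MP_eae946_nt.NoUniversalTernary
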